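import Pool.Agent.Helper16.AZ.Stmts

/-!
High frequencies of a function with small oscillation at scale `1 / M` (module TLR).
-/

open Finset Filter MeasureTheory Topology
open scoped ComplexConjugate InnerProductSpace

namespace Pool.Agent.Helper16.AZ

open Pool.Agent.Helper16.MD (MS PB Am RW Rich)
open UnitAddTorus (mFourier)

theorem tlr_shift {r : ℕ} (F : T r → ℂ) (X : Fin r → ℤ) (s : T r) :
    fc (fun θ => F (θ + s)) X = mFourier X s * fc F X := by
  unfold fc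
  have h1 : (∫ θ, UnitAddTorus.mFourier (-X) θ * F (θ + s) ∂(mm r)) =
      ∫ θ, UnitAddTorus.mFourier (-X) (θ + s + (-s)) * F (θ + s) ∂(mm r) := by
    congr 1; ext θ; congr 2; abel
  rw [h1, integral_add_right_eq_self (fun θ => UnitAddTorus.mFourier (-X) (θ + (-s)) * F θ) s,
    ← integral_const_mul]
  congr 1; ext θ
  have h2 : UnitAddTorus.mFourier (-X) (θ + -s) =
      UnitAddTorus.mFourier X s * UnitAddTorus.mFourier (-X) θ := by
    simp only [UnitAddTorus.mFourier, ContinuousMap.coe_mk, Pi.add_apply, Pi.neg_apply]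
    rw [← Finset.prod_mul_distrib]
    refine Finset.prod_congr rfl fun i _ => ?_
    rw [fourier_apply, fourier_apply, fourier_apply, ← Circle.coe_mul, ← AddCircle.toCircle_add]
    congr 2
    rw [smul_add, smul_neg, neg_smul, neg_smul, neg_neg, add_comm]
  rw [h2]; ring

theorem tlr_diff {r : ℕ} (F : T r → ℂ) (hF : Continuous F) (X : Fin r → ℤ) (s : T r) :
    fc (fun θ => F (θ + s) - F θ) X = (mFourier X s - 1) * fc F X := by
  have h1 := tlr_shift F X s
  have hi1 : Integrable (fun θ => UnitAddTorus.mFourier (-X) θ * F (θ + s)) (mm r) := by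
    have : Continuous (fun θ : T r => UnitAddTorus.mFourier (-X) θ * F (θ + s)) := by fun_prop
    exact this.integrable_of_hasCompactSupport (HasCompactSupport.of_compactSpace _)
  have hi2 : Integrable (fun θ => UnitAddTorus.mFourier (-X) θ * F θ) (mm r) := by
    have : Continuous (fun θ : T r => UnitAddTorus.mFourier (-X) θ * F θ) := by fun_prop
    exact this.integrable_of_hasCompactSupport (HasCompactSupport.of_compactSpace _)
  have h2 : fc (fun θ => F (θ + s) - F θ) X = fc (fun θ => F (θ + s)) X - fc F X := by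
    unfold fc
    rw [← integral_sub hi1 hi2]
    congr 1; ext θ; ring
  rw [h2, h1]; ring

theorem tlr_parseval (h : ST_FPV) {r : ℕ} (F : T r → ℂ) (hF : Continuous F) (s : T r) (δ : ℝ)
    (hd : ∀ θ, ‖F (θ + s) - F θ‖ ≤ δ) (A : Finset (Fin r → ℤ)) :
    ∑ X ∈ A, ‖mFourier X s - 1‖ ^ 2 * ‖fc F X‖ ^ 2 ≤ δ ^ 2 := by
  have hc : Continuous (fun θ => F (θ + s) - F θ) := by fun_prop
  have h1 := h r (fun θ => F (θ + s) - F θ) hc
  have h2 : ∑ X ∈ A, ‖fc (fun θ => F (θ + s) - F θ) X‖ ^ 2 ≤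
      ∫ θ, ‖F (θ + s) - F θ‖ ^ 2 ∂(mm r) := sum_le_hasSum A (fun X _ => by positivity) h1
  have h3 : ∫ θ, ‖F (θ + s) - F θ‖ ^ 2 ∂(mm r) ≤ ∫ _θ : T r, δ ^ 2 ∂(mm r) := by
    refine integral_mono ?_ (integrable_const _) ?_
    · have : Continuous (fun θ : T r => ‖F (θ + s) - F θ‖ ^ 2) := by fun_prop
      exact this.integrable_of_hasCompactSupport (HasCompactSupport.of_compactSpace _)
    · intro θ
      exact pow_le_pow_left₀ (norm_nonneg _) (hd θ) 2
  have h4 : ∫ _θ : T r, δ ^ 2 ∂(mm r) = δ ^ 2 := by simp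
  calc ∑ X ∈ A, ‖mFourier X s - 1‖ ^ 2 * ‖fc F X‖ ^ 2
      = ∑ X ∈ A, ‖fc (fun θ => F (θ + s) - F θ) X‖ ^ 2 := by
        refine Finset.sum_congr rfl fun X _ => ?_
        rw [tlr_diff F hF, norm_mul, mul_pow]
    _ ≤ δ ^ 2 := by rw [← h4]; exact h2.trans h3

theorem tlr_norm {r : ℕ} (X : Fin r → ℤ) (j : Fin r) (t : ℝ) :
    ‖mFourier X (Pi.single j (t : UnitAddCircle)) - 1‖ ^ 2 =
      2 - 2 * Real.cos (2 * Real.pi * X j * t) := by
  have h1 : mFourier X (Pi.single j (t : UnitAddCircle)) =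
      Complex.exp ((2 * Real.pi * X j * t : ℝ) * Complex.I) := by
    simp only [UnitAddTorus.mFourier, ContinuousMap.coe_mk]
    rw [Finset.prod_eq_single j]
    · rw [Pi.single_eq_same, fourier_coe_apply]
      congr 1; push_cast; ring
    · intro i _ hi
      rw [Pi.single_eq_of_ne hi]; simp
    · simp
  rw [h1]
  set φ : ℝ := 2 * Real.pi * X j * t
  rw [← Complex.normSq_eq_norm_sq, Complex.normSq_apply]
  have e1 : (Complex.exp ((φ : ℂ) * Complex.I) - 1).re = Real.cos φ - 1 := by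
    rw [Complex.sub_re, Complex.exp_ofReal_mul_I_re, Complex.one_re]
  have e2 : (Complex.exp ((φ : ℂ) * Complex.I) - 1).im = Real.sin φ := by
    rw [Complex.sub_im, Complex.exp_ofReal_mul_I_im, Complex.one_im, sub_zero]
  rw [e1, e2]
  nlinarith [Real.sin_sq_add_cos_sq φ]

theorem tlr_single {r : ℕ} (j : Fin r) (t : ℝ) (c : ℝ) (hc : |t| ≤ c) :
    ‖(Pi.single j (t : UnitAddCircle) : T r)‖ ≤ c := by
  have hc0 : 0 ≤ c := (abs_nonneg t).trans hc
  rw [pi_norm_le_iff_of_nonneg hc0]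
  intro i
  by_cases hi : i = j
  · subst hi
    rw [Pi.single_eq_same]
    refine le_trans ?_ hc
    rw [AddCircle.norm_eq]
    simp only [inv_one, one_mul, mul_one]
    calc |t - (round t : ℝ)| ≤ |t - ((0 : ℤ) : ℝ)| := round_le t 0
      _ = |t| := by simp
  · rw [Pi.single_eq_of_ne hi]; simpa using hc0

theorem tlr_int (a : ℝ) (M : ℕ) (hM : 1 ≤ M) (ha : (M : ℝ) < |a|) :
    1 / (M : ℝ) ≤ ∫ t in (0 : ℝ)..(1 / (M : ℝ)), (2 - 2 * Real.cos (2 * Real.pi * a * t)) := by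
  have hM0 : (0 : ℝ) < M := by exact_mod_cast hM
  have ha0 : a ≠ 0 := by
    intro h; rw [h, abs_zero] at ha; linarith
  have hpi := Real.pi_gt_three
  have hk : 2 * Real.pi * a ≠ 0 := by positivity
  have h1 : ∫ t in (0 : ℝ)..(1 / (M : ℝ)), (2 - 2 * Real.cos (2 * Real.pi * a * t)) =
      2 / M - 2 * ((2 * Real.pi * a)⁻¹ * Real.sin (2 * Real.pi * a * (1 / M))) := by
    rw [intervalIntegral.integral_sub (by simp) (by
      apply Continuous.intervalIntegrable; fun_prop)]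
    rw [intervalIntegral.integral_const, intervalIntegral.integral_const_mul]
    have : ∫ t in (0 : ℝ)..(1 / (M : ℝ)), Real.cos (2 * Real.pi * a * t) =
        (2 * Real.pi * a)⁻¹ * Real.sin (2 * Real.pi * a * (1 / M)) := by
      rw [intervalIntegral.integral_comp_mul_left (fun y => Real.cos y) hk, integral_cos]
      simp
    rw [this]
    simp only [smul_eq_mul]; ring
  rw [h1]
  have h2 : |(2 * Real.pi * a)⁻¹ * Real.sin (2 * Real.pi * a * (1 / M))| ≤ 1 / (2 * M) := by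
    rw [abs_mul, abs_inv]
    have h3 : |2 * Real.pi * a| = 2 * Real.pi * |a| := by
      rw [abs_mul, abs_of_pos (by positivity)]
    rw [h3]
    have h4 : (2 * Real.pi * |a|)⁻¹ ≤ 1 / (2 * M) := by
      rw [inv_eq_one_div]
      apply one_div_le_one_div_of_le (by positivity)
      nlinarith
    calc (2 * Real.pi * |a|)⁻¹ * |Real.sin (2 * Real.pi * a * (1 / M))|
        ≤ (2 * Real.pi * |a|)⁻¹ * 1 := by
          apply mul_le_mul_of_nonneg_left (Real.abs_sin_le_one _) (by positivity)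
      _ ≤ 1 / (2 * M) := by rw [mul_one]; exact h4
  have h5 := (abs_le.mp h2).2
  have h6 : 2 * ((2 * Real.pi * a)⁻¹ * Real.sin (2 * Real.pi * a * (1 / M))) ≤ 1 / M := by
    calc 2 * ((2 * Real.pi * a)⁻¹ * Real.sin (2 * Real.pi * a * (1 / M)))
        ≤ 2 * (1 / (2 * M)) := by linarith
      _ = 1 / M := by field_simp
  have h7 : (2 : ℝ) / M = 1 / M + 1 / M := by ring
  rw [h7]; linarith

theorem tlr_one (h : ST_FPV) {r : ℕ} (F : T r → ℂ) (M : ℕ) (δ : ℝ) (hF : Continuous F)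
    (hM : 1 ≤ M)
    (hd : ∀ θ s : T r, ‖s‖ ≤ 1 / (M : ℝ) → ‖F (θ + s) - F θ‖ ≤ δ)
    (j : Fin r) (A : Finset (Fin r → ℤ)) (hA : ∀ X ∈ A, (M : ℤ) < |X j|) :
    ∑ X ∈ A, ‖fc F X‖ ^ 2 ≤ δ ^ 2 := by
  have hM0 : (0 : ℝ) < M := by exact_mod_cast hM
  have h1 : ∀ t ∈ Set.Icc (0 : ℝ) (1 / (M : ℝ)),
      ∑ X ∈ A, (2 - 2 * Real.cos (2 * Real.pi * X j * t)) * ‖fc F X‖ ^ 2 ≤ δ ^ 2 := by
    intro t ht
    have := tlr_parseval h F hF (Pi.single j (t : UnitAddCircle)) δ
      (fun θ => hd θ _ (tlr_single j t _ (by rw [abs_of_nonneg ht.1]; exact ht.2))) A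
    simpa only [tlr_norm] using this
  have h2 : ∫ t in (0 : ℝ)..(1 / (M : ℝ)),
      (∑ X ∈ A, (2 - 2 * Real.cos (2 * Real.pi * X j * t)) * ‖fc F X‖ ^ 2) ≤
      ∫ _t in (0 : ℝ)..(1 / (M : ℝ)), δ ^ 2 := by
    refine intervalIntegral.integral_mono_on (by positivity) ?_ (by simp) h1
    apply Continuous.intervalIntegrable
    fun_prop
  rw [intervalIntegral.integral_finsetSum (fun X _ => by
    apply Continuous.intervalIntegrable; fun_prop)] at h2
  have h3 : ∑ X ∈ A, (1 / (M : ℝ)) * ‖fc F X‖ ^ 2 ≤ ∑ X ∈ A, ∫ t in (0 : ℝ)..(1 / (M : ℝ)),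
      (2 - 2 * Real.cos (2 * Real.pi * X j * t)) * ‖fc F X‖ ^ 2 := by
    refine Finset.sum_le_sum fun X hX => ?_
    rw [intervalIntegral.integral_mul_const]
    refine mul_le_mul_of_nonneg_right ?_ (by positivity)
    refine tlr_int (X j : ℝ) M hM ?_
    have := hA X hX
    have h4 : (((M : ℤ) : ℝ)) < ((|X j| : ℤ) : ℝ) := by exact_mod_cast this
    rw [Int.cast_abs] at h4
    simpa using h4
  rw [← Finset.mul_sum] at h3
  have h5 : ∫ _t in (0 : ℝ)..(1 / (M : ℝ)), δ ^ 2 = 1 / M * δ ^ 2 := by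
    rw [intervalIntegral.integral_const]; simp
  rw [h5] at h2
  have h6 := h3.trans h2
  exact le_of_mul_le_mul_left h6 (by positivity)

theorem st_TLR (h1 : ST_FPV) : ST_TLR := by
  classical
  intro r F M δ hF hM hδ hd A hA
  have h2 : ∀ X ∈ A, ‖fc F X‖ ^ 2 ≤ ∑ j : Fin r, if (M : ℤ) < |X j| then ‖fc F X‖ ^ 2 else 0 := by
    intro X hX
    obtain ⟨j, hj⟩ := hA X hX
    have h3 : (if (M : ℤ) < |X j| then ‖fc F X‖ ^ 2 else 0) ≤
        ∑ j : Fin r, if (M : ℤ) < |X j| then ‖fc F X‖ ^ 2 else 0 :=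
      Finset.single_le_sum (f := fun j : Fin r => if (M : ℤ) < |X j| then ‖fc F X‖ ^ 2 else 0)
        (fun i _ => by split_ifs <;> positivity) (Finset.mem_univ j)
    rw [if_pos hj] at h3
    exact h3
  calc ∑ X ∈ A, ‖fc F X‖ ^ 2
      ≤ ∑ X ∈ A, ∑ j : Fin r, if (M : ℤ) < |X j| then ‖fc F X‖ ^ 2 else 0 :=
        Finset.sum_le_sum h2
    _ = ∑ j : Fin r, ∑ X ∈ A.filter (fun X => (M : ℤ) < |X j|), ‖fc F X‖ ^ 2 := by
        rw [Finset.sum_comm]
        refine Finset.sum_congr rfl fun j _ => ?_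
        rw [Finset.sum_filter]
    _ ≤ ∑ _j : Fin r, δ ^ 2 := by
        refine Finset.sum_le_sum fun j _ => ?_
        exact tlr_one h1 F M δ hF hM hd j _ (fun X hX => (Finset.mem_filter.mp hX).2)
    _ = r * δ ^ 2 := by simp

end Pool.Agent.Helper16.AZ
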